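import Pool.Agent.TH423.DF.GCount
import Pool.Agent.TH423.DS.Primes

/-! Many exceptional integers. -/

set_option autoImplicit false

open Finset

namespace Pool.Agent.TH423.DF

open Pool.Agent.H661R3.OP (Rough)
open Pool.Agent.TH423.DS (Rough.mul Rough.prod Rough.prime Cube F_prod prod_one_mod prod_le_pow
  exists_nst cardFactors_le card_divisors_le primes_count)

theorem Exc_finite {H : Type} (a₁ a₂ b₁ b₂ : ℤ) {s : ℕ} (E E' : Fin s → ℤ) (F : ℕ → H) (S : Set H)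
    (Y X : ℕ) : (Exc a₁ a₂ b₁ b₂ E E' F S Y X).Finite :=
  (Set.finite_Iic X).subset fun _ hn => hn.2.1

theorem exists_n0 (k : ℕ) (a₁ a₂ b₁ b₂ : ℤ) {s : ℕ} (E E' : Fin s → ℤ)
    (hadm : ∀ p : ℕ, p.Prime → ∃ n : ℤ, ¬ (p : ℤ) ∣ a₁ * n + b₁ ∧ ¬ (p : ℤ) ∣ a₂ * n + b₂ ∧
      ∀ j, ¬ (p : ℤ) ∣ E j * n + E' j) : ∃ nst : ℤ,
    (∀ p : ℕ, p.Prime → p ≤ k → ¬ (p : ℤ) ∣ a₁ * nst + b₁) ∧
    (∀ p : ℕ, p.Prime → p ≤ k → ¬ (p : ℤ) ∣ a₂ * nst + b₂) ∧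
    ∀ j, ∀ p : ℕ, p.Prime → p ≤ k → ¬ (p : ℤ) ∣ E j * nst + E' j := by
  obtain ⟨x0, h1, h2⟩ := exists_nst k ((Polynomial.C a₁ * Polynomial.X + Polynomial.C b₁) *
    (Polynomial.C a₂ * Polynomial.X + Polynomial.C b₂))
    (fun j => Polynomial.C (E j) * Polynomial.X + Polynomial.C (E' j)) (by
      intro p hp
      obtain ⟨n, h1, h2, h3⟩ := hadm p hp
      refine ⟨n, ?_, fun j => ?_⟩
      · simp only [Polynomial.eval_mul, Polynomial.eval_X, Polynomial.eval_add, Polynomial.eval_C]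
        intro h
        rcases (Nat.prime_iff_prime_int.1 hp).dvd_or_dvd h with h | h
        · exact h1 h
        · exact h2 h
      · simp only [Polynomial.eval_mul, Polynomial.eval_X, Polynomial.eval_add, Polynomial.eval_C]
        exact h3 j)
  refine ⟨x0, fun p hp hpk h => h1 p hp hpk ?_, fun p hp hpk h => h1 p hp hpk ?_,
    fun j p hp hpk h => h2 j p hp hpk ?_⟩
  · simp only [Polynomial.eval_mul, Polynomial.eval_X, Polynomial.eval_add, Polynomial.eval_C]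
    exact h.mul_right _
  · simp only [Polynomial.eval_mul, Polynomial.eval_X, Polynomial.eval_add, Polynomial.eval_C]
    exact h.mul_left _
  · simp only [Polynomial.eval_mul, Polynomial.eval_X, Polynomial.eval_add, Polynomial.eval_C]
    exact h

open Classical in
theorem count (r s a₁ a₂ : ℕ) (ha₁ : 0 < a₁) (ha₂ : 0 < a₂) :
    ∃ q C₃ Y₀ : ℕ, 0 < q ∧ 2 ≤ Y₀ ∧ 3 * r + 1 ≤ C₃ ∧ ∀ Y X V R : ℕ, Y₀ ≤ Y →
    Y ^ C₃ * V ^ 2 ≤ X → Y ^ C₃ ≤ V → ∀ (b₁ b₂ : ℤ) (E E' : Fin s → ℤ),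
    |b₁| * (Y : ℤ) ^ C₃ < (V : ℤ) ^ 2 → |b₂| * (Y : ℤ) ^ C₃ < (V : ℤ) ^ 2 →
    (∀ p : ℕ, p.Prime → ∃ n : ℤ, ¬ (p : ℤ) ∣ a₁ * n + b₁ ∧ ¬ (p : ℤ) ∣ a₂ * n + b₂ ∧
      ∀ j, ¬ (p : ℤ) ∣ E j * n + E' j) →
    (∀ n : ℕ, n ≤ X → |(a₁ : ℤ) * n + b₁| < (Y : ℤ) ^ (R + 1) ∧
      |(a₂ : ℤ) * n + b₂| < (Y : ℤ) ^ (R + 1)) →
    ∀ (Γ : Type) [AddCommGroup Γ] (F : ℕ → Γ),
    (∀ x y : ℕ, x ≠ 0 → y ≠ 0 → F (x * y) = F x + F y) → ∀ (S : Set Γ) (P : Fin r → ℕ),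
    (∀ i, (P i).Prime ∧ Y < P i ∧ P i ≤ Y ^ 3 ∧ (q : ℤ) ∣ (P i : ℤ) - 1) → Cube F S P →
    ((Ioc V (2 * V)).filter (fun p : ℕ => p.Prime ∧ (q : ℤ) ∣ (p : ℤ) - 1)).card * V ≤
      Y ^ C₃ * (2 ^ (r + 1 + 2 * R) * (Exc (a₁ : ℤ) a₂ b₁ b₂ E E' F S Y X).ncard) := by
  obtain ⟨k, hk⟩ : ∃ k : ℕ, k = 2 + 2 ^ r + (2 ^ r * s + 2 ^ r * s) + a₁ + a₂ := ⟨_, rfl⟩
  obtain ⟨L, hL⟩ : ∃ L : ℕ, L = primorial (2 * k) := ⟨_, rfl⟩
  have hL0 : 0 < L := by rw [hL]; exact primorial_pos _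
  have h2r : 1 ≤ 2 ^ r := Nat.one_le_two_pow
  obtain ⟨C₁, Y₁, hC₁⟩ := pair r s k L a₁ a₂ ha₁ ha₂ (by omega) (by omega) (by omega) hL
  obtain ⟨C₂, hC₂⟩ := gcount r k L a₁ a₂ ha₁ ha₂ (by omega) (by omega) (by omega) hL
  obtain ⟨W, hW⟩ : ∃ W : ℕ, W = a₁ * a₂ * L ^ 2 := ⟨_, rfl⟩
  have hWpos : 0 < W := by rw [hW]; positivity
  have hWz : (W : ℤ) = a₁ * a₂ * L ^ 2 := by rw [hW]; push_cast; ring
  obtain ⟨C₃, hC₃⟩ : ∃ C₃ : ℕ, C₃ = C₁ + 3 * r + 3 * C₂ + 3 := ⟨_, rfl⟩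
  refine ⟨W, C₃, Y₁ + 2 + 8 * W, hWpos, by omega, by omega, ?_⟩
  intro Y X V R hY hX hYV b₁ b₂ E E' hb₁ hb₂ hadm hR Γ _ F hF S P hP hcube
  have hY2 : 2 ≤ Y := by omega
  have hY1 : 1 ≤ Y := by omega
  have hY1z : (1 : ℤ) ≤ Y := by exact_mod_cast hY1
  obtain ⟨nst, hx0, hy0, hj0⟩ := exists_n0 (2 * k) a₁ a₂ b₁ b₂ E E' hadm
  have hE' : ∀ j, ∀ p : ℕ, p.Prime → (p : ℤ) ∣ E j → ¬ (p : ℤ) ∣ E' j := by
    intro j p hp h1 h2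
    obtain ⟨n, -, -, h3⟩ := hadm p hp
    exact h3 j (dvd_add (h1.mul_right _) h2)
  have hbb : ∀ b : ℤ, |b| * (Y : ℤ) ^ C₃ < (V : ℤ) ^ 2 →
      |b| * (Y : ℤ) ^ (3 * r + 1) < (V : ℤ) ^ 2 := by
    intro b hb
    refine lt_of_le_of_lt ?_ hb
    apply mul_le_mul_of_nonneg_left _ (abs_nonneg _)
    exact pow_le_pow_right₀ hY1z (by omega)
  have hY3V : Y ^ 3 ≤ V := (Nat.pow_le_pow_right hY1 (by omega)).trans hYV
  have hVpos : 0 < V := lt_of_lt_of_le (by positivity) hYV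
  obtain ⟨Q, hQ⟩ : ∃ Q : Finset ℕ, Q = (Ioc V (2 * V)).filter
    (fun p : ℕ => p.Prime ∧ (W : ℤ) ∣ (p : ℤ) - 1) := ⟨_, rfl⟩
  have hQm : ∀ v ∈ Q, V < v ∧ v ≤ 2 * V ∧ v.Prime ∧ (a₁ * a₂ * L ^ 2 : ℤ) ∣ (v : ℤ) - 1 := by
    intro v hv
    rw [hQ, mem_filter, mem_Ioc, hWz] at hv
    exact ⟨hv.1.1, hv.1.2, hv.2.1, hv.2.2⟩
  rw [← hQ]
  have hPL : ∀ i, (P i).Prime ∧ Y < P i ∧ P i ≤ Y ^ 3 ∧
      (a₁ * a₂ * L ^ 2 : ℤ) ∣ (P i : ℤ) - 1 := fun i =>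
    ⟨(hP i).1, (hP i).2.1, (hP i).2.2.1, by rw [← hWz]; exact (hP i).2.2.2⟩
  have hYT : 1 + Y ^ (3 * C₂) ≤ V / (4 * Y ^ (3 * r) * (a₁ * a₂ * L ^ 2)) := by
    rw [← hW, Nat.le_div_iff_mul_le (by positivity)]
    refine le_trans ?_ hYV
    have e1 : 1 + Y ^ (3 * C₂) ≤ 2 * Y ^ (3 * C₂) := by
      have : 1 ≤ Y ^ (3 * C₂) := Nat.one_le_pow _ _ hY1
      omega
    calc (1 + Y ^ (3 * C₂)) * (4 * Y ^ (3 * r) * W)
        ≤ (2 * Y ^ (3 * C₂)) * (4 * Y ^ (3 * r) * W) := Nat.mul_le_mul_right _ e1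
      _ = (8 * W) * (Y ^ (3 * C₂) * Y ^ (3 * r)) := by ring
      _ ≤ Y * (Y ^ (3 * C₂) * Y ^ (3 * r)) := Nat.mul_le_mul_right _ (by omega)
      _ = Y ^ (3 * C₂ + 3 * r + 1) := by ring
      _ ≤ Y ^ C₃ := Nat.pow_le_pow_right hY1 (by omega)
  -- the pairs
  have hpairs : ∀ vg ∈ Q.sigma (fun v => gset r L a₁ a₂ Y V (a₂ * nst + b₂) P v),
      ∃ n ∈ Exc (a₁ : ℤ) a₂ b₁ b₂ E E' F S Y X, ∃ (A : Finset (Fin r)) (δ₁ δ₂ : ℕ),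
      δ₁ ∣ (a₁ * (n : ℤ) + b₁).natAbs ∧ δ₂ ∣ (a₂ * (n : ℤ) + b₂).natAbs ∧
      vg.1 = (∏ i ∈ A, P i) * vg.2 + a₁ * L * δ₂ ∧ (δ₁ = vg.2 ∨ δ₁ = vg.1) := by
    rintro ⟨v, g⟩ hvg
    rw [mem_sigma] at hvg
    obtain ⟨hv, hg⟩ := hvg
    simp only at hv hg ⊢
    obtain ⟨hv1, hv2, hv3, hv4⟩ := hQm v hv
    rw [gset, mem_filter, mem_Icc] at hg
    obtain ⟨⟨hg1, hg2⟩, hg3, hg4, hg5, hg6, hg7⟩ := hg
    have hYY3 : Y ≤ Y ^ 3 := by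
      calc Y = Y ^ 1 := (pow_one Y).symm
        _ ≤ _ := Nat.pow_le_pow_right hY1 (by omega)
    refine hC₁ Y (by omega) b₁ b₂ nst hx0 hy0 E E' hj0 hE' P hPL V v g X hv1 hv2 (by omega) hg5
      hg6 (hbb b₁ hb₁) (hbb b₂ hb₂) ?_ (fun p hp hpY => hg4 p hp (hpY.trans hYY3))
      (Rough.prime hv3 (by omega)) hg3 hv4 ?_ hg7 Γ F hF S hcube
    · exact (Nat.mul_le_mul_right _ (Nat.pow_le_pow_right hY1 (by omega))).trans hX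
    · refine IsCoprime.mul_right (IsCoprime.prod_right fun i _ => ?_) ?_
      · rw [Nat.isCoprime_iff_coprime, Nat.coprime_primes hv3 (hP i).1]
        have := (hP i).2.2.1
        omega
      · rw [Nat.isCoprime_iff_coprime, hv3.coprime_iff_not_dvd]
        intro hd
        have := Nat.le_of_dvd (by omega) hd
        omega
  choose! nf hnf Af δ₁ δ₂ hδ₁ hδ₂ hor1 hor2 using hpairs
  obtain ⟨N, hN⟩ : ∃ N : Finset ℕ, ∀ n, n ∈ N ↔ n ∈ Exc (a₁ : ℤ) a₂ b₁ b₂ E E' F S Y X :=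
    ⟨(Exc_finite _ _ _ _ E E' F S Y X).toFinset, fun n => Set.Finite.mem_toFinset _⟩
  have hNcard : (Exc (a₁ : ℤ) a₂ b₁ b₂ E E' F S Y X).ncard = N.card := by
    rw [← Set.ncard_coe_finset]
    congr 1
    ext n
    rw [mem_coe, hN]
  have hprod : ∀ A : Finset (Fin r), 0 < (∏ i ∈ A, P i) := fun A =>
    Nat.pos_of_ne_zero (prod_ne_zero_iff.2 fun i _ => (hP i).1.ne_zero)
  have hinjφ : Set.InjOn (fun vg : (Σ _ : ℕ, ℕ) => ((⟨nf vg, (δ₁ vg, δ₂ vg)⟩ : Σ _ : ℕ, ℕ × ℕ),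
      (Af vg, decide (δ₁ vg = vg.2))))
      (Q.sigma (fun v => gset r L a₁ a₂ Y V (a₂ * nst + b₂) P v) : Finset (Σ _ : ℕ, ℕ)) := by
    intro u hu v hv heq
    rw [mem_coe] at hu hv
    simp only [Prod.mk.injEq, Sigma.mk.injEq, heq_eq_eq] at heq
    obtain ⟨⟨-, hd1, hd2⟩, hA, hτ⟩ := heq
    have hu1 := hor1 u hu
    have hv1 := hor1 v hv
    rw [← hA, ← hd2] at hv1
    by_cases hc : δ₁ u = u.2
    · have hc' : δ₁ v = v.2 := by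
        rw [decide_eq_true hc] at hτ
        exact of_decide_eq_true hτ.symm
      have e2 : u.2 = v.2 := by rw [← hc, ← hc', hd1]
      have e1 : u.1 = v.1 := by rw [hu1, hv1, e2]
      exact Sigma.ext e1 (heq_of_eq e2)
    · have hc' : ¬ (δ₁ v = v.2) := by
        rw [decide_eq_false hc] at hτ
        exact of_decide_eq_false hτ.symm
      have e1 : u.1 = v.1 := by
        rw [← (hor2 u hu).resolve_left hc, ← (hor2 v hv).resolve_left hc', hd1]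
      have e2 : u.2 = v.2 := by
        have h5 : (∏ i ∈ Af u, P i) * u.2 = (∏ i ∈ Af u, P i) * v.2 := by omega
        exact Nat.eq_of_mul_eq_mul_left (hprod _) h5
      exact Sigma.ext e1 (heq_of_eq e2)
  have hmaps : ∀ vg ∈ Q.sigma (fun v => gset r L a₁ a₂ Y V (a₂ * nst + b₂) P v),
      (fun vg : (Σ _ : ℕ, ℕ) => ((⟨nf vg, (δ₁ vg, δ₂ vg)⟩ : Σ _ : ℕ, ℕ × ℕ),
      (Af vg, decide (δ₁ vg = vg.2)))) vg ∈
      (N.sigma (fun n => (a₁ * (n : ℤ) + b₁).natAbs.divisors ×ˢ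
        (a₂ * (n : ℤ) + b₂).natAbs.divisors)) ×ˢ
        (univ : Finset (Finset (Fin r) × Bool)) := by
    intro vg hvg
    have h1 := hnf vg hvg
    simp only [mem_product, mem_sigma, mem_univ, and_true]
    have h3 := h1.2.2.1
    have h4 := h1.2.2.2.1
    refine ⟨(hN _).2 h1, Nat.mem_divisors.2 ⟨hδ₁ vg hvg, ?_⟩,
      Nat.mem_divisors.2 ⟨hδ₂ vg hvg, ?_⟩⟩
    · intro h; rw [Int.natAbs_eq_zero] at h; omega
    · intro h; rw [Int.natAbs_eq_zero] at h; omega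
  have hcard := card_le_card_of_injOn _ hmaps hinjφ
  have hdivb : ∀ m : ℤ, 0 < m → Rough Y m → |m| < (Y : ℤ) ^ (R + 1) →
      m.natAbs.divisors.card ≤ 2 ^ R := by
    intro m hm hr hlt
    have h0 : m.natAbs ≠ 0 := by intro h; rw [Int.natAbs_eq_zero] at h; omega
    refine (card_divisors_le _ h0).trans (Nat.pow_le_pow_right (by norm_num) ?_)
    refine cardFactors_le hY1 h0 ?_ ?_
    · rwa [Int.natCast_natAbs, abs_of_pos hm]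
    · zify; exact_mod_cast hlt
  have hdiv : ∑ n ∈ N, ((a₁ * (n : ℤ) + b₁).natAbs.divisors ×ˢ
      (a₂ * (n : ℤ) + b₂).natAbs.divisors).card ≤ ∑ n ∈ N, 2 ^ (2 * R) := by
    apply sum_le_sum
    intro n hn
    obtain ⟨hn1, hn2, hn3, hn4, hn5, hn6, -, -⟩ := (hN n).1 hn
    rw [card_product, two_mul, pow_add]
    exact Nat.mul_le_mul (hdivb _ hn3 hn5 (hR n hn2).1) (hdivb _ hn4 hn6 (hR n hn2).2)
  have hcardu : (univ : Finset (Finset (Fin r) × Bool)).card = 2 ^ (r + 1) := by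
    rw [card_univ]
    simp [pow_succ]
  have hlow : Q.card * V ≤ Y ^ (3 * C₂ + 3 * r + 1) *
      (Q.sigma (fun v => gset r L a₁ a₂ Y V (a₂ * nst + b₂) P v)).card := by
    rw [card_sigma, mul_sum, card_eq_sum_ones, sum_mul]
    apply sum_le_sum
    intro v hv
    obtain ⟨hv1, hv2, hv3, hv4⟩ := hQm v hv
    have h1 := hC₂ Y hY2 (a₂ * nst + b₂) hy0 P
      (fun i => ⟨(hPL i).1, (hPL i).2.2.1, (hPL i).2.2.2⟩) V v hv1 hv3 (by omega) hv4 hYT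
    rw [← hW] at h1 hYT
    have h2 : 1 ≤ V / (4 * Y ^ (3 * r) * W) := by omega
    have h3 : V < 4 * Y ^ (3 * r) * W * (V / (4 * Y ^ (3 * r) * W) + 1) :=
      Nat.lt_mul_div_succ V (by positivity)
    have h4 : 4 * Y ^ (3 * r) * W * (V / (4 * Y ^ (3 * r) * W) + 1) ≤
        4 * Y ^ (3 * r) * W * (2 * (V / (4 * Y ^ (3 * r) * W))) :=
      Nat.mul_le_mul_left _ (by omega)
    calc 1 * V ≤ 4 * Y ^ (3 * r) * W * (2 * (V / (4 * Y ^ (3 * r) * W))) := by omega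
      _ = (8 * W) * (Y ^ (3 * r) * (V / (4 * Y ^ (3 * r) * W))) := by ring
      _ ≤ Y * (Y ^ (3 * r) * (V / (4 * Y ^ (3 * r) * W))) := Nat.mul_le_mul_right _ (by omega)
      _ ≤ Y * (Y ^ (3 * r) * (Y ^ (3 * C₂) *
          (gset r L a₁ a₂ Y V (a₂ * nst + b₂) P v).card)) :=
          Nat.mul_le_mul_left _ (Nat.mul_le_mul_left _ h1)
      _ = Y ^ (3 * C₂ + 3 * r + 1) * (gset r L a₁ a₂ Y V (a₂ * nst + b₂) P v).card := by ring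
  rw [hNcard]
  have hcs : (N.sigma (fun n => (a₁ * (n : ℤ) + b₁).natAbs.divisors ×ˢ
        (a₂ * (n : ℤ) + b₂).natAbs.divisors)).card = ∑ n ∈ N,
      ((a₁ * (n : ℤ) + b₁).natAbs.divisors ×ˢ (a₂ * (n : ℤ) + b₂).natAbs.divisors).card :=
    card_sigma _ _
  rw [card_product, hcs, hcardu] at hcard
  rw [sum_const, smul_eq_mul] at hdiv
  calc Q.card * V ≤ Y ^ (3 * C₂ + 3 * r + 1) *
        (Q.sigma (fun v => gset r L a₁ a₂ Y V (a₂ * nst + b₂) P v)).card := hlow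
    _ ≤ Y ^ (3 * C₂ + 3 * r + 1) * ((N.card * 2 ^ (2 * R)) * 2 ^ (r + 1)) := by
        apply Nat.mul_le_mul_left
        exact hcard.trans (Nat.mul_le_mul_right _ hdiv)
    _ = Y ^ (3 * C₂ + 3 * r + 1) * (2 ^ (r + 1 + 2 * R) * N.card) := by rw [pow_add]; ring
    _ ≤ Y ^ C₃ * (2 ^ (r + 1 + 2 * R) * N.card) := by
        apply Nat.mul_le_mul_right
        exact Nat.pow_le_pow_right hY1 (by omega)

end Pool.Agent.TH423.DF
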