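import Pool.Agent.H661R3.OP.SV
import Pool.Agent.TH423.DS.Arith
import Pool.Agent.TH423.DS.Member

/-!
The family of simultaneous values `x = a₁ n + b₁`, `y = a₂ n + b₂` linked by
`L (a₂ x - a₁ y) = M g h - u v`, with `a₂ L x = a g (b h - u)`, `a₁ L y = u (v - a g)`, `a b = M`.
-/

set_option autoImplicit false

open Finset

namespace Pool.Agent.TH423.DF

open Pool.Agent.H661R3.OP (Rough)
open Pool.Agent.TH423.DS (isCoprime_of_rough Rough.mul Rough.prod Rough.prime)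

theorem sqdvd (L a₁ a₂ : ℤ) : L ∣ a₁ * a₂ * L ^ 2 := ⟨a₁ * a₂ * L, by ring⟩

/-- the sieve in the last variable -/
theorem fam (k : ℕ) (L a₁ a₂ : ℤ) (hL0 : 0 < L) (ha₁ : 0 < a₁) (ha₂ : 0 < a₂) (ha₁k : a₁ ≤ k)
    (ha₂k : a₂ ≤ k) (hLd : ∀ p : ℕ, p.Prime → ((p : ℤ) ∣ L ↔ p ≤ 2 * k)) :
    ∃ C : ℕ, ∀ (ι : Type) [Fintype ι] (s : ℕ),
    2 + Fintype.card ι + (Fintype.card ι * s + Fintype.card ι * s) ≤ k →
    ∀ (Y : ℕ), 2 ≤ Y → 2 * k ≤ Y → ∀ (b₁ b₂ nst : ℤ),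
    (∀ p : ℕ, p.Prime → p ≤ 2 * k → ¬ (p : ℤ) ∣ a₁ * nst + b₁) →
    (∀ p : ℕ, p.Prime → p ≤ 2 * k → ¬ (p : ℤ) ∣ a₂ * nst + b₂) →
    ∀ (E F : Fin s → ℤ), (∀ j, ∀ p : ℕ, p.Prime → p ≤ 2 * k → ¬ (p : ℤ) ∣ E j * nst + F j) →
    (∀ j, ∀ p : ℕ, p.Prime → (p : ℤ) ∣ E j → ¬ (p : ℤ) ∣ F j) →
    ∀ (M g v B : ℤ) (a b d : ι → ℤ), 0 < M → 0 < g → 0 ≤ B → M * g < v → Rough Y M → Rough Y g →
    Rough Y v →
    (∀ A, 0 < a A ∧ 0 < b A ∧ a A * b A = M) → (∀ A, a₁ * a₂ * L ^ 2 ∣ a A - 1) →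
    (∀ A, a₁ * a₂ * L ^ 2 ∣ b A - 1) → a₁ * a₂ * L ^ 2 ∣ M - 1 →
    a₁ * a₂ * L ^ 2 ∣ g - (1 - a₁ * L * (a₂ * nst + b₂)) → a₁ * a₂ * L ^ 2 ∣ v - 1 →
    IsCoprime v (M * g) →
    (∀ A, v - a A * g = a₁ * L * d A ∧ 0 < d A ∧ Rough Y (d A)) →
    L * |a₂ * b₁ - a₁ * b₂| < B * (v - M * g) →
    ∃ u h : ℤ, 0 < u ∧ B ≤ u ∧ u ≤ B + (Y ^ C + 1) * (M * g * (a₁ * a₂ * L ^ 2)) ∧ u < h ∧
      Rough Y u ∧ Rough Y h ∧ M * g * h - u * v = L * (a₂ * b₁ - a₁ * b₂) ∧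
      ∀ A, ∃ e n n' : ℤ, b A * h - u = a₂ * L * e ∧ 0 < e ∧ Rough Y e ∧
        a₁ * n + b₁ = a A * g * e ∧ a₂ * n + b₂ = u * d A ∧
        a₁ * n' + b₁ = v * e ∧ a₂ * n' + b₂ = b A * h * d A ∧
        (∀ j, Rough Y (E j * n + F j)) ∧ (∀ j, Rough Y (E j * n' + F j)) := by
  classical
  obtain ⟨C, hC⟩ := Pool.Agent.H661R3.OP.t_SV k
  refine ⟨C, ?_⟩
  intro ι _ s hk Y hY hkY b₁ b₂ nst hx hy E F hEF hEF' M g v B a b d hM hg hB hMgv hMr hgr hvr hab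
    ha hb hM1 hg1 hv1 hcop hd hsize
  obtain ⟨W, hW⟩ : ∃ W : ℤ, W = a₁ * a₂ * L ^ 2 := ⟨_, rfl⟩
  have hLW : L ∣ W := by rw [hW]; exact sqdvd L a₁ a₂
  have hW0 : 0 < W := by rw [hW]; positivity
  have hMg : 0 < M * g := by positivity
  have hv0 : 0 < v := by linarith
  have hMgr : Rough Y (M * g) := Rough.mul hMr hgr
  have hWp : ∀ p : ℕ, p.Prime → (p : ℤ) ∣ W → (p : ℤ) ∣ L := by
    intro p hp hdvd
    have hpp := Nat.prime_iff_prime_int.1 hp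
    rw [hW] at hdvd
    rcases hpp.dvd_or_dvd hdvd with h | h
    · rw [hLd p hp]
      rcases hpp.dvd_or_dvd h with h | h
      · have := Int.le_of_dvd ha₁ h; omega
      · have := Int.le_of_dvd ha₂ h; omega
    · exact hpp.dvd_of_dvd_pow h
  have hcopW : ∀ w : ℤ, Rough Y w → IsCoprime w W := fun w hw =>
    isCoprime_of_rough hw fun p hp h => ((hLd p hp).1 (hWp p hp h)).trans hkY
  rw [← hW] at ha hb hM1 hg1 hv1
  obtain ⟨Δ, hΔ⟩ : ∃ Δ : ℤ, Δ = a₂ * b₁ - a₁ * b₂ := ⟨_, rfl⟩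
  rw [← hΔ] at hsize ⊢
  -- the starting point
  obtain ⟨x, hx1, hx2⟩ : ∃ x : ℤ, M * g ∣ L * Δ + x * v ∧ W ∣ x - 1 := by
    obtain ⟨α, β, hαβ⟩ := hcop
    obtain ⟨γ, δ, hγδ⟩ := hcopW _ hMgr
    refine ⟨γ * (M * g) * 1 + δ * W * (-(α * (L * Δ))), ?_, ?_⟩
    · refine ⟨γ * v + γ * α * (L * Δ) * v + β * (L * Δ), ?_⟩
      linear_combination (-(v * α * (L * Δ))) * hγδ + (L * Δ) * (-hαβ)
    · refine ⟨-(δ * α * (L * Δ)) - δ, ?_⟩
      linear_combination hγδ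
  have hm : 0 < M * g * W := by positivity
  obtain ⟨u0, hu0x, hu0lo, hu0hi⟩ : ∃ u0 : ℤ, M * g * W ∣ u0 - x ∧ B ≤ u0 ∧
      u0 < B + M * g * W := by
    refine ⟨B + (x - B) % (M * g * W), ⟨- ((x - B) / (M * g * W)), ?_⟩, ?_, ?_⟩
    · have := Int.emod_add_mul_ediv (x - B) (M * g * W)
      linear_combination this
    · have := Int.emod_nonneg (x - B) hm.ne'
      linarith
    · have := Int.emod_lt_of_pos (x - B) hm
      linarith
  have hu0W : W ∣ u0 - 1 := by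
    have h1 : W ∣ u0 - x := (Dvd.intro_left _ rfl).trans hu0x
    have h2 : u0 - 1 = (u0 - x) + (x - 1) := by ring
    rw [h2]
    exact dvd_add h1 hx2
  obtain ⟨h0, hh0⟩ : M * g ∣ L * Δ + u0 * v := by
    have h1 : M * g ∣ u0 - x := (Dvd.intro _ rfl).trans hu0x
    have h2 : L * Δ + u0 * v = (L * Δ + x * v) + (u0 - x) * v := by ring
    rw [h2]
    exact dvd_add hx1 (h1.mul_right _)
  -- h0 ≡ 1 + a₂ L x*
  have hh0W : W ∣ h0 - (1 + a₂ * L * (a₁ * nst + b₁)) := by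
    have h1 : W ∣ g * (h0 - (1 + a₂ * L * (a₁ * nst + b₁))) := by
      have e1 : g * (h0 - (1 + a₂ * L * (a₁ * nst + b₁))) =
          -((M - 1) * g * h0) + (u0 - 1) * v + (v - 1) -
          (g - (1 - a₁ * L * (a₂ * nst + b₂))) * (1 + a₂ * L * (a₁ * nst + b₁)) +
          W * ((a₁ * nst + b₁) * (a₂ * nst + b₂)) +
          (M * g * h0 - (L * Δ + u0 * v)) := by
        rw [hW, hΔ]; ring
      rw [e1, ← hh0, sub_self, add_zero]
      exact dvd_add (dvd_sub (dvd_add (dvd_add ((dvd_neg).2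
        ((hM1.mul_right _).mul_right _)) (hu0W.mul_right _)) hv1) (hg1.mul_right _))
        (Dvd.intro _ rfl)
    exact (hcopW g hgr).symm.dvd_of_dvd_mul_left h1
  have he0 : ∀ A, ∃ z : ℤ, b A * h0 - u0 = a₂ * L * ((a₁ * nst + b₁) + a₁ * L * z) := by
    intro A
    have h1 : W ∣ b A * h0 - u0 - a₂ * L * (a₁ * nst + b₁) := by
      have : b A * h0 - u0 - a₂ * L * (a₁ * nst + b₁) =
        (b A - 1) * h0 + (h0 - (1 + a₂ * L * (a₁ * nst + b₁))) - (u0 - 1) := by ring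
      rw [this]
      exact dvd_sub (dvd_add ((hb A).mul_right _) hh0W) hu0W
    obtain ⟨z, hz⟩ := h1
    rw [hW] at hz
    exact ⟨z, by linear_combination hz⟩
  choose z hz using he0
  -- the initial values of `n`
  have ha1L : a₁ * L ∣ W := ⟨a₂ * L, by rw [hW]; ring⟩
  have hagW : ∀ A, a₁ * L ∣ a A * g - 1 := by
    intro A
    have e1 : a A * g - 1 = (a A - 1) * g + (g - (1 - a₁ * L * (a₂ * nst + b₂))) -
      a₁ * L * (a₂ * nst + b₂) := by ring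
    rw [e1]
    exact dvd_sub (dvd_add ((ha1L.trans (ha A)).mul_right _) (ha1L.trans hg1)) (Dvd.intro _ rfl)
  have hn0 : ∀ A, ∃ z₁ : ℤ, a A * g * ((a₁ * nst + b₁) + a₁ * L * z A) =
      a₁ * (nst + L * z₁) + b₁ := by
    intro A
    obtain ⟨w, hw⟩ := hagW A
    refine ⟨w * ((a₁ * nst + b₁) + a₁ * L * z A) + z A, ?_⟩
    have : a A * g = 1 + a₁ * L * w := by linarith
    rw [this]
    ring
  have hn0' : ∀ A, ∃ z₁ : ℤ, v * ((a₁ * nst + b₁) + a₁ * L * z A) =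
      a₁ * (nst + L * z₁) + b₁ := by
    intro A
    obtain ⟨w, hw⟩ := ha1L.trans hv1
    refine ⟨w * ((a₁ * nst + b₁) + a₁ * L * z A) + z A, ?_⟩
    have : v = 1 + a₁ * L * w := by linarith
    rw [this]
    ring
  choose z₁ hz₁ using hn0
  choose z₂ hz₂ using hn0'
  -- small primes
  have hbr : ∀ A, Rough Y (b A) := by
    intro A p hp hpY hd
    apply hMr p hp hpY
    rw [← (hab A).2.2]
    exact hd.mul_left _
  have hone : ∀ p : ℕ, p.Prime → ∀ w : ℤ, (p : ℤ) ∣ w - 1 → ¬ (p : ℤ) ∣ w := by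
    intro p hp w h1 h2
    have h3 : (p : ℤ) ∣ 1 := by
      have := dvd_sub h2 h1
      simpa using this
    have := Int.le_of_dvd one_pos h3
    have := hp.two_le
    omega
  have hnotr : ∀ p : ℕ, p.Prime → p ≤ Y → ∀ w w' : ℤ, Rough Y w → (∀ p : ℕ, p.Prime → (p : ℤ) ∣ w' →
      (p : ℤ) ∣ L) → (p : ℤ) ∣ w * w' → (p : ℤ) ∣ L := by
    intro p hp hpY w w' hw hw' hdvd
    rcases (Nat.prime_iff_prime_int.1 hp).dvd_or_dvd hdvd with h | h
    · exact absurd h (hw p hp hpY)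
    · exact hw' p hp h
  have hWa : ∀ w' : ℤ, w' ∣ W * W → ∀ p : ℕ, p.Prime → (p : ℤ) ∣ w' → (p : ℤ) ∣ L := by
    intro w' hw' p hp h
    rcases (Nat.prime_iff_prime_int.1 hp).dvd_or_dvd (h.trans hw') with h | h
    · exact hWp p hp h
    · exact hWp p hp h
  have hform : ∀ (j : Fin s) (p : ℕ), p.Prime → ∀ w z' : ℤ, ((p : ℤ) ∣ w → (p : ℤ) ∣ L) →
      (p : ℤ) ∣ E j * w → ¬ (p : ℤ) ∣ E j * (nst + L * z') + F j := by
    intro j p hp w z' hw hdvd h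
    rcases (Nat.prime_iff_prime_int.1 hp).dvd_or_dvd hdvd with h1 | h1
    · apply hEF' j p hp h1
      exact (dvd_add_right (h1.mul_right _)).1 h
    · have h2 := hw h1
      apply hEF j p hp ((hLd p hp).1 h2)
      have : E j * nst + F j = (E j * (nst + L * z') + F j) - L * (E j * z') := by ring
      rw [this]
      exact dvd_sub h (h2.mul_right _)
  have hpL : ∀ p : ℕ, p.Prime → p ≤ 2 * k → ∀ w : ℤ, L ∣ w → (p : ℤ) ∣ w := fun p hp hpk w hw =>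
    ((hLd p hp).2 hpk).trans hw
  have hsv := hC (Unit ⊕ Unit ⊕ ι ⊕ (ι × Fin s) ⊕ (ι × Fin s)) (by simp; omega)
    (Sum.elim (fun _ => M * g * W) (Sum.elim (fun _ => v * W)
      (Sum.elim (fun A => (b A * d A) * (a₁ ^ 2 * L ^ 2))
        (Sum.elim (fun Aj => E Aj.2 * ((M * g * d Aj.1) * (a₁ * L ^ 2)))
          (fun Aj => E Aj.2 * ((v * (b Aj.1 * d Aj.1)) * (a₁ * L ^ 2)))))))
    (Sum.elim (fun _ => u0) (Sum.elim (fun _ => h0)
      (Sum.elim (fun A => (a₁ * nst + b₁) + a₁ * L * z A)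
        (Sum.elim (fun Aj => E Aj.2 * (nst + L * z₁ Aj.1) + F Aj.2)
          (fun Aj => E Aj.2 * (nst + L * z₂ Aj.1) + F Aj.2))))) Y hY
    (by
      intro i p hp hpY hdvd
      have h12 : a₁ * L ^ 2 ∣ W * W := ⟨a₂ * W, by rw [hW]; ring⟩
      have h12' : a₁ ^ 2 * L ^ 2 ∣ W * W := ⟨a₂ ^ 2 * L ^ 2, by rw [hW]; ring⟩
      rcases i with _ | _ | A | ⟨A, j⟩ | ⟨A, j⟩
      · have h1 := hnotr p hp hpY _ _ hMgr hWp hdvd
        exact hone p hp u0 ((h1.trans hLW).trans hu0W)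
      · have h1 := hnotr p hp hpY _ _ hvr hWp hdvd
        refine hone p hp h0 ?_
        have h2 := (h1.trans hLW).trans hh0W
        have : h0 - 1 = (h0 - (1 + a₂ * L * (a₁ * nst + b₁))) + L * (a₂ * (a₁ * nst + b₁)) := by
          ring
        rw [this]
        exact dvd_add h2 (h1.mul_right _)
      · have h1 := hnotr p hp hpY _ _ (Rough.mul (hbr A) (hd A).2.2) (hWa _ h12') hdvd
        intro h2
        apply hx p hp ((hLd p hp).1 h1)
        have : a₁ * nst + b₁ = ((a₁ * nst + b₁) + a₁ * L * z A) - L * (a₁ * z A) := by ring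
        rw [this]
        exact dvd_sub h2 (h1.mul_right _)
      · refine hform j p hp _ _ ?_ hdvd
        exact fun h => hnotr p hp hpY _ _ (Rough.mul hMgr (hd A).2.2) (hWa _ h12) h
      · refine hform j p hp _ _ ?_ hdvd
        exact fun h => hnotr p hp hpY _ _ (Rough.mul hvr (Rough.mul (hbr A) (hd A).2.2))
          (hWa _ h12) h)
    (by
      intro i p hp hpk
      rcases i with _ | _ | A | ⟨A, j⟩ | ⟨A, j⟩
      · exact hpL p hp hpk _ (hLW.mul_left _)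
      · exact hpL p hp hpk _ (hLW.mul_left _)
      · exact hpL p hp hpk _ ⟨b A * d A * (a₁ ^ 2 * L), by simp only [Sum.elim_inl, Sum.elim_inr]; ring⟩
      · exact hpL p hp hpk _ ⟨E j * ((M * g * d A) * (a₁ * L)), by simp only [Sum.elim_inl, Sum.elim_inr]; ring⟩
      · exact hpL p hp hpk _ ⟨E j * ((v * (b A * d A)) * (a₁ * L)), by simp only [Sum.elim_inr]; ring⟩)
    0 (Y ^ C) le_rfl
  have hpos : 0 < Y ^ C := by positivity
  obtain ⟨t, ht0, htT, htr⟩ : ({t : ℤ | 0 ≤ t ∧ t < 0 + (Y ^ C : ℕ) ∧ ∀ i, Rough Y ((Sum.elim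
      (fun _ => M * g * W) (Sum.elim (fun _ => v * W)
      (Sum.elim (fun A => (b A * d A) * (a₁ ^ 2 * L ^ 2))
        (Sum.elim (fun Aj => E Aj.2 * ((M * g * d Aj.1) * (a₁ * L ^ 2)))
          (fun Aj => E Aj.2 * ((v * (b Aj.1 * d Aj.1)) * (a₁ * L ^ 2)))))) :
      Unit ⊕ Unit ⊕ ι ⊕ (ι × Fin s) ⊕ (ι × Fin s) → ℤ) i * t +
      (Sum.elim (fun _ => u0) (Sum.elim (fun _ => h0)
      (Sum.elim (fun A => (a₁ * nst + b₁) + a₁ * L * z A)
        (Sum.elim (fun Aj => E Aj.2 * (nst + L * z₁ Aj.1) + F Aj.2)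
          (fun Aj => E Aj.2 * (nst + L * z₂ Aj.1) + F Aj.2)))) :
      Unit ⊕ Unit ⊕ ι ⊕ (ι × Fin s) ⊕ (ι × Fin s) → ℤ) i)}).Nonempty := by
    by_contra hcon
    rw [Set.not_nonempty_iff_eq_empty] at hcon
    rw [hcon, Set.ncard_empty, mul_zero] at hsv
    omega
  have h1 := htr (Sum.inl ())
  have h2 := htr (Sum.inr (Sum.inl ()))
  have h3 := fun A => htr (Sum.inr (Sum.inr (Sum.inl A)))
  have h4 := fun A j => htr (Sum.inr (Sum.inr (Sum.inr (Sum.inl (A, j)))))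
  have h5 := fun A j => htr (Sum.inr (Sum.inr (Sum.inr (Sum.inr (A, j)))))
  simp only [Sum.elim_inl, Sum.elim_inr] at h1 h2 h3 h4 h5
  push_cast at htT
  have ht1 : t ≤ (Y : ℤ) ^ C := by linarith
  have hMgWt : 0 ≤ M * g * W * t := by positivity
  have hBu : B ≤ M * g * W * t + u0 := by linarith
  have hBpos : 0 < B := by
    rcases hB.lt_or_eq with h | h
    · exact h
    · exfalso
      rw [← h, zero_mul] at hsize
      have : 0 ≤ L * |Δ| := by positivity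
      linarith
  have hupos : 0 < M * g * W * t + u0 := by linarith
  have hEq : M * g * (v * W * t + h0) - (M * g * W * t + u0) * v = L * Δ := by
    linear_combination -hh0
  have huh : M * g * W * t + u0 < v * W * t + h0 := by
    by_contra hcon
    push Not at hcon
    have e1 : M * g * (v * W * t + h0) ≤ M * g * (M * g * W * t + u0) :=
      mul_le_mul_of_nonneg_left hcon hMg.le
    have e2 : B * (v - M * g) ≤ (M * g * W * t + u0) * (v - M * g) :=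
      mul_le_mul_of_nonneg_right hBu (by linarith)
    have e3 : -(L * |Δ|) ≤ L * Δ := by
      have := mul_le_mul_of_nonneg_left (neg_abs_le Δ) hL0.le
      linarith
    nlinarith
  refine ⟨M * g * W * t + u0, v * W * t + h0, hupos, hBu, ?_, huh, h1, h2, hEq, fun A => ?_⟩
  · have e1 := mul_le_mul_of_nonneg_left ht1 hm.le
    rw [← hW]
    linarith
  · have hdA := (hd A).1
    have hzA := hz A
    have habA := (hab A).2.2
    have heq1 : b A * (v * W * t + h0) - (M * g * W * t + u0) =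
        a₂ * L * ((b A * d A) * (a₁ ^ 2 * L ^ 2) * t + ((a₁ * nst + b₁) + a₁ * L * z A)) := by
      rw [hW]
      linear_combination hzA + (a₁ * a₂ * L ^ 2 * t * b A) * hdA + (a₁ * a₂ * L ^ 2 * g * t) * habA
    have hepos : 0 < (b A * d A) * (a₁ ^ 2 * L ^ 2) * t + ((a₁ * nst + b₁) + a₁ * L * z A) := by
      have e1 : 0 < b A * (v * W * t + h0) - (M * g * W * t + u0) := by
        have h8 : 1 ≤ b A := (hab A).2.1
        have h9 : 0 < v * W * t + h0 := by linarith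
        nlinarith
      rw [heq1] at e1
      exact (mul_pos_iff_of_pos_left (by positivity)).1 e1
    have hn1 : a₁ * ((M * g * d A) * (a₁ * L ^ 2) * t + (nst + L * z₁ A)) + b₁ = a A * g *
        ((b A * d A) * (a₁ ^ 2 * L ^ 2) * t + ((a₁ * nst + b₁) + a₁ * L * z A)) := by
      linear_combination (-1) * hz₁ A - (a₁ ^ 2 * L ^ 2 * g * d A * t) * habA
    have hn2 : a₁ * ((v * (b A * d A)) * (a₁ * L ^ 2) * t + (nst + L * z₂ A)) + b₁ = v *
        ((b A * d A) * (a₁ ^ 2 * L ^ 2) * t + ((a₁ * nst + b₁) + a₁ * L * z A)) := by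
      linear_combination (-1) * hz₂ A
    obtain ⟨e, he⟩ : ∃ e : ℤ, e = (b A * d A) * (a₁ ^ 2 * L ^ 2) * t +
      ((a₁ * nst + b₁) + a₁ * L * z A) := ⟨_, rfl⟩
    obtain ⟨n, hn⟩ : ∃ n : ℤ, n = (M * g * d A) * (a₁ * L ^ 2) * t + (nst + L * z₁ A) := ⟨_, rfl⟩
    obtain ⟨n', hn'⟩ : ∃ n' : ℤ, n' = (v * (b A * d A)) * (a₁ * L ^ 2) * t + (nst + L * z₂ A) :=
      ⟨_, rfl⟩
    obtain ⟨u, hu⟩ : ∃ u : ℤ, u = M * g * W * t + u0 := ⟨_, rfl⟩
    obtain ⟨h, hh⟩ : ∃ h : ℤ, h = v * W * t + h0 := ⟨_, rfl⟩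
    have h3A := h3 A
    rw [← he] at heq1 hepos hn1 hn2 h3A
    rw [← hn] at hn1
    rw [← hn'] at hn2
    rw [← hu, ← hh] at heq1 hEq ⊢
    have haL : a₁ * L ≠ 0 := by positivity
    refine ⟨e, n, n', heq1, hepos, h3A, hn1, ?_, hn2, ?_, ?_, ?_⟩
    · -- a₂ n + b₂ = u d
      apply mul_left_cancel₀ haL
      have e1 : a₁ * L * (u * d A) = u * (v - a A * g) := by rw [hdA]; ring
      rw [e1]
      linear_combination (a₂ * L) * hn1 - (a A * g) * heq1 + hEq + L * hΔ + (g * h) * habA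
    · apply mul_left_cancel₀ haL
      have e1 : a₁ * L * (b A * h * d A) = b A * h * (v - a A * g) := by rw [hdA]; ring
      rw [e1]
      linear_combination (a₂ * L) * hn2 - v * heq1 + hEq + L * hΔ + (g * h) * habA
    · intro j
      have := h4 A j
      rw [hn]
      have e1 : E j * ((M * g * d A) * (a₁ * L ^ 2) * t + (nst + L * z₁ A)) + F j =
        E j * (M * g * d A * (a₁ * L ^ 2)) * t + (E j * (nst + L * z₁ A) + F j) := by ring
      rw [e1]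
      exact this
    · intro j
      have := h5 A j
      rw [hn']
      have e1 : E j * ((v * (b A * d A)) * (a₁ * L ^ 2) * t + (nst + L * z₂ A)) + F j =
        E j * (v * (b A * d A) * (a₁ * L ^ 2)) * t + (E j * (nst + L * z₂ A) + F j) := by ring
      rw [e1]
      exact this

end Pool.Agent.TH423.DF
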