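import Pool.Agent.TH423.DF.Pairs

/-! The number of admissible second parameters. -/

set_option autoImplicit false

open Finset

namespace Pool.Agent.TH423.DF

open Pool.Agent.H661R3.OP (Rough)
open Pool.Agent.TH423.DS (Rough.mul Rough.prod Rough.prime Cube F_prod prod_one_mod prod_le_pow
  isCoprime_of_rough)

open Classical in
/-- the admissible second parameters -/
noncomputable def gset (r L a₁ a₂ : ℕ) (Y V : ℕ) (y0 : ℤ) (P : Fin r → ℕ) (v : ℕ) : Finset ℕ :=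
  (Finset.Icc 1 V).filter (fun g => (a₁ * a₂ * L ^ 2 : ℤ) ∣ (g : ℤ) - (1 - a₁ * L * y0) ∧
    Rough (Y ^ 3) (g : ℤ) ∧ 2 * ((∏ i, P i) * g) ≤ V ∧ V ≤ 8 * Y ^ (3 * r) * g ∧
    ∀ A : Finset (Fin r), ∃ d : ℕ, v = (∏ i ∈ A, P i) * g + a₁ * L * d ∧ 0 < d ∧ Rough Y (d : ℤ))

theorem gcount (r k L a₁ a₂ : ℕ) (ha₁ : 0 < a₁) (ha₂ : 0 < a₂) (ha₁k : a₁ ≤ k) (ha₂k : a₂ ≤ k)
    (hk : 1 + 2 ^ r ≤ k) (hL : L = primorial (2 * k)) :
    ∃ C : ℕ, ∀ Y : ℕ, 2 ≤ Y → ∀ y0 : ℤ, (∀ p : ℕ, p.Prime → p ≤ 2 * k → ¬ (p : ℤ) ∣ y0) →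
    ∀ P : Fin r → ℕ, (∀ i, (P i).Prime ∧ P i ≤ Y ^ 3 ∧ (a₁ * a₂ * L ^ 2 : ℤ) ∣ (P i : ℤ) - 1) →
    ∀ (V v : ℕ), V < v → v.Prime → Y ^ 3 < v → (a₁ * a₂ * L ^ 2 : ℤ) ∣ (v : ℤ) - 1 →
    1 + Y ^ (3 * C) ≤ V / (4 * Y ^ (3 * r) * (a₁ * a₂ * L ^ 2)) →
    V / (4 * Y ^ (3 * r) * (a₁ * a₂ * L ^ 2)) ≤
      Y ^ (3 * C) * (gset r L a₁ a₂ Y V y0 P v).card := by
  classical
  have hk2 : 2 ≤ k := by
    have : 1 ≤ 2 ^ r := Nat.one_le_two_pow
    omega
  have hLd : ∀ p : ℕ, p.Prime → ((p : ℤ) ∣ (L : ℤ) ↔ p ≤ 2 * k) := by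
    intro p hp
    rw [Int.natCast_dvd_natCast, hL, hp.dvd_primorial_iff]
  have hL0 : 0 < L := by rw [hL]; exact primorial_pos _
  have hL0' : (0 : ℤ) < L := by exact_mod_cast hL0
  have ha₁' : (0 : ℤ) < a₁ := by exact_mod_cast ha₁
  have ha₂' : (0 : ℤ) < a₂ := by exact_mod_cast ha₂
  obtain ⟨C, hC⟩ := Pool.Agent.H661R3.OP.t_SV k
  refine ⟨C, ?_⟩
  intro Y hY y0 hy0 P hP V v hVv hvp hvY hv1 hT
  obtain ⟨W, hW⟩ : ∃ W : ℤ, W = a₁ * a₂ * (L : ℤ) ^ 2 := ⟨_, rfl⟩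
  have hWpos : 0 < W := by rw [hW]; positivity
  have hLW : (L : ℤ) ∣ W := by rw [hW]; exact sqdvd _ _ _
  have hWp : ∀ p : ℕ, p.Prime → (p : ℤ) ∣ W → (p : ℤ) ∣ L := by
    intro p hp hdvd
    have hpp := Nat.prime_iff_prime_int.1 hp
    rw [hW] at hdvd
    rcases hpp.dvd_or_dvd hdvd with h | h
    · rw [hLd p hp]
      rcases hpp.dvd_or_dvd h with h | h
      · have := Int.le_of_dvd ha₁' h; omega
      · have := Int.le_of_dvd ha₂' h; omega
    · exact hpp.dvd_of_dvd_pow h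
  rw [← hW] at hv1
  have hPW : ∀ i, W ∣ (P i : ℤ) - 1 := fun i => by rw [hW]; exact (hP i).2.2
  obtain ⟨T, hTd⟩ : ∃ T : ℕ, T = V / (4 * Y ^ (3 * r) * (a₁ * a₂ * L ^ 2)) := ⟨_, rfl⟩
  rw [← hTd] at hT ⊢
  obtain ⟨ρ, hρ1, hρ2, hρ3⟩ : ∃ ρ : ℤ, W ∣ ρ - (1 - a₁ * L * y0) ∧ 0 ≤ ρ ∧ ρ < W := by
    refine ⟨(1 - a₁ * L * y0) % W, ⟨-((1 - a₁ * L * y0) / W), ?_⟩, Int.emod_nonneg _ hWpos.ne',
      Int.emod_lt_of_pos _ hWpos⟩
    have := Int.emod_add_mul_ediv (1 - a₁ * L * y0) W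
    linear_combination this
  have hone : ∀ p : ℕ, p.Prime → ∀ w : ℤ, (p : ℤ) ∣ w - 1 → ¬ (p : ℤ) ∣ w := by
    intro p hp w h1 h2
    have h3 : (p : ℤ) ∣ 1 := by
      have := dvd_sub h2 h1
      simpa using this
    have := Int.le_of_dvd one_pos h3
    have := hp.two_le
    omega
  -- v - a_A ρ = a₁ L * (y0 + a₂ L z)
  have hz : ∀ A : Finset (Fin r), ∃ z : ℤ, (v : ℤ) - (∏ i ∈ A, (P i : ℤ)) * ρ =
      a₁ * L * (y0 + a₂ * L * z) := by
    intro A
    have h1 : W ∣ ∏ i ∈ A, (P i : ℤ) - 1 := prod_one_mod _ A _ fun i _ => hPW i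
    have h2 : W ∣ (v : ℤ) - (∏ i ∈ A, (P i : ℤ)) * ρ - a₁ * L * y0 := by
      have : (v : ℤ) - (∏ i ∈ A, (P i : ℤ)) * ρ - a₁ * L * y0 =
        ((v : ℤ) - 1) - (∏ i ∈ A, (P i : ℤ) - 1) * ρ - (ρ - (1 - a₁ * L * y0)) := by ring
      rw [this]
      exact dvd_sub (dvd_sub hv1 (h1.mul_right _)) hρ1
    obtain ⟨z, hz⟩ := h2
    rw [hW] at hz
    exact ⟨z, by linear_combination hz⟩
  choose z hz using hz
  have hprodz : ∀ A : Finset (Fin r), (0 : ℤ) < ∏ i ∈ A, (P i : ℤ) := fun A =>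
    Finset.prod_pos fun i _ => by exact_mod_cast (hP i).1.pos
  have hsv := hC (Unit ⊕ Finset (Fin r)) (by simp; omega)
    (Sum.elim (fun _ => W) (fun A => -((∏ i ∈ A, (P i : ℤ)) * (a₂ * L))))
    (Sum.elim (fun _ => ρ) (fun A => y0 + a₂ * L * z A)) (Y ^ 3)
    (by
      calc 2 ≤ Y := hY
        _ = Y ^ 1 := (pow_one Y).symm
        _ ≤ Y ^ 3 := Nat.pow_le_pow_right (by omega) (by norm_num))
    (by
      intro i p hp hpY hdvd
      rcases i with _ | A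
      · have h1 : (p : ℤ) ∣ L := hWp p hp hdvd
        refine hone p hp ρ ?_
        have h2 : (p : ℤ) ∣ ρ - (1 - a₁ * L * y0) := (h1.trans hLW).trans hρ1
        have : ρ - 1 = (ρ - (1 - a₁ * L * y0)) - L * (a₁ * y0) := by ring
        rw [this]
        exact dvd_sub h2 (h1.mul_right _)
      · intro h2
        have hpp := Nat.prime_iff_prime_int.1 hp
        rcases hpp.dvd_or_dvd ((dvd_neg).1 hdvd) with h1 | h1
        · -- p divides some P i, then p divides v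
          have h3 : (p : ℤ) ∣ v := by
            have h4 : (v : ℤ) = (∏ i ∈ A, (P i : ℤ)) * ρ + a₁ * L * (y0 + a₂ * L * z A) := by
              have := hz A
              linarith
            rw [h4]
            exact dvd_add (h1.mul_right _) (h2.mul_left _)
          have h5 : p = v := (Nat.prime_dvd_prime_iff_eq hp hvp).1 (Int.natCast_dvd_natCast.1 h3)
          omega
        · have h3 : (p : ℤ) ∣ L := by
            rcases hpp.dvd_or_dvd h1 with h | h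
            · exact hWp p hp (h.trans ⟨a₁ * (L : ℤ) ^ 2, by rw [hW]; ring⟩)
            · exact h
          apply hy0 p hp ((hLd p hp).1 h3)
          have : y0 = (y0 + a₂ * L * z A) - L * (a₂ * z A) := by ring
          rw [this]
          exact dvd_sub h2 (h3.mul_right _))
    (by
      intro i p hp hpk
      have h1 := (hLd p hp).2 hpk
      rcases i with _ | A
      · exact h1.trans hLW
      · exact (dvd_neg).2 ((h1.mul_left _).mul_left _))
    T T (by rw [← pow_mul]; omega)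
  rw [← pow_mul] at hsv
  refine hsv.trans (Nat.mul_le_mul_left _ ?_)
  rw [← Set.ncard_coe_finset]
  have hTlo : 4 * (Y : ℤ) ^ (3 * r) * W * T ≤ V := by
    have h1 : 4 * Y ^ (3 * r) * (a₁ * a₂ * L ^ 2) * T ≤ V := by
      rw [hTd]; exact Nat.mul_div_le _ _
    rw [hW]
    exact_mod_cast h1
  have hThi : (V : ℤ) < 4 * (Y : ℤ) ^ (3 * r) * W * (T + 1) := by
    have h1 : V < 4 * Y ^ (3 * r) * (a₁ * a₂ * L ^ 2) * (T + 1) := by
      rw [hTd]; exact Nat.lt_mul_div_succ _ (by positivity)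
    rw [hW]
    exact_mod_cast h1
  have hT1 : (1 : ℤ) ≤ T := by exact_mod_cast (by omega : 1 ≤ T)
  have hMY : ∏ i, (P i : ℤ) ≤ (Y : ℤ) ^ (3 * r) := by
    exact_mod_cast prod_le_pow univ P Y (by omega) fun i => (hP i).2.1
  refine Set.ncard_le_ncard_of_injOn (fun t : ℤ => (ρ + t * W).toNat) ?_ ?_
    (Finset.finite_toSet _)
  · rintro t ⟨ht0, htT, htr⟩
    have h1 := htr (Sum.inl ())
    have h2 := fun A => htr (Sum.inr A)
    simp only [Sum.elim_inl, Sum.elim_inr] at h1 h2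
    have htpos : 0 < t := by linarith
    have hgpos : 0 < ρ + t * W := by positivity
    have hcast : (((ρ + t * W).toNat : ℕ) : ℤ) = ρ + t * W := Int.toNat_of_nonneg hgpos.le
    have hghi : ρ + t * W < 2 * (T * W) := by
      have h3 : t + 1 ≤ 2 * T := by linarith
      have h4 := mul_le_mul_of_nonneg_right h3 hWpos.le
      linarith
    have hglo : T * W ≤ ρ + t * W := by
      have h4 := mul_le_mul_of_nonneg_right ht0 hWpos.le
      linarith
    have hYp : (1 : ℤ) ≤ (Y : ℤ) ^ (3 * r) := one_le_pow₀ (by exact_mod_cast (by omega : 1 ≤ Y))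
    have hMg : 2 * ((∏ i, (P i : ℤ)) * (ρ + t * W)) ≤ V := by
      have h5 : (∏ i, (P i : ℤ)) * (ρ + t * W) ≤ (Y : ℤ) ^ (3 * r) * (2 * (T * W)) :=
        mul_le_mul hMY hghi.le hgpos.le (by positivity)
      linarith
    have hVg : (V : ℤ) ≤ 8 * (Y : ℤ) ^ (3 * r) * (ρ + t * W) := by
      have h5 : 8 * (Y : ℤ) ^ (3 * r) * (T * W) ≤ 8 * (Y : ℤ) ^ (3 * r) * (ρ + t * W) :=
        mul_le_mul_of_nonneg_left hglo (by positivity)
      have h6 : 4 * (Y : ℤ) ^ (3 * r) * W * 1 ≤ 4 * (Y : ℤ) ^ (3 * r) * W * T :=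
        mul_le_mul_of_nonneg_left hT1 (by positivity)
      linarith
    have hM1 : (1 : ℤ) ≤ ∏ i, (P i : ℤ) := hprodz univ
    have hgV : ρ + t * W ≤ V := by
      have h5 : 1 * (ρ + t * W) ≤ (∏ i, (P i : ℤ)) * (ρ + t * W) :=
        mul_le_mul_of_nonneg_right hM1 hgpos.le
      linarith
    rw [gset, coe_filter, Set.mem_ofPred_eq, mem_Icc]
    refine ⟨⟨by omega, by omega⟩, ?_, ?_, ?_, ?_, fun A => ?_⟩
    · rw [hcast, ← hW]
      have : ρ + t * W - (1 - a₁ * L * y0) = (ρ - (1 - a₁ * L * y0)) + t * W := by ring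
      rw [this]
      exact dvd_add hρ1 (Dvd.intro_left _ rfl)
    · rw [hcast, show ρ + t * W = W * t + ρ by ring]
      exact h1
    · zify
      rw [hcast]
      exact hMg
    · zify
      rw [hcast]
      exact hVg
    · have h3 := h2 A
      have h4 := hz A
      have h5 : (v : ℤ) = (∏ i ∈ A, (P i : ℤ)) * (ρ + t * W) + a₁ * L *
          (-((∏ i ∈ A, (P i : ℤ)) * (a₂ * L)) * t + (y0 + a₂ * L * z A)) := by
        rw [hW]
        linear_combination h4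
      have hAM : ∏ i ∈ A, (P i : ℤ) ≤ ∏ i, (P i : ℤ) := by
        rw [← Finset.prod_mul_prod_compl A]
        exact le_mul_of_one_le_right (hprodz A).le (hprodz Aᶜ)
      have h6 : (∏ i ∈ A, (P i : ℤ)) * (ρ + t * W) ≤ (∏ i, (P i : ℤ)) * (ρ + t * W) :=
        mul_le_mul_of_nonneg_right hAM hgpos.le
      have hVvz : (V : ℤ) < v := by exact_mod_cast hVv
      have h7 : 0 < (a₁ * L : ℤ) * (-((∏ i ∈ A, (P i : ℤ)) * (a₂ * L)) * t +
          (y0 + a₂ * L * z A)) := by linarith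
      have h8 : 0 < -((∏ i ∈ A, (P i : ℤ)) * (a₂ * L)) * t + (y0 + a₂ * L * z A) :=
        (mul_pos_iff_of_pos_left (by positivity)).1 h7
      refine ⟨(-((∏ i ∈ A, (P i : ℤ)) * (a₂ * L)) * t + (y0 + a₂ * L * z A)).toNat, ?_,
        by omega, ?_⟩
      · zify
        rw [hcast, Int.toNat_of_nonneg h8.le]
        exact h5
      · rw [Int.toNat_of_nonneg h8.le]
        intro p hp hpY
        apply h3 p hp
        calc p ≤ Y := hpY
          _ = Y ^ 1 := (pow_one Y).symm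
          _ ≤ Y ^ 3 := Nat.pow_le_pow_right (by omega) (by norm_num)
  · rintro t ⟨ht0, -, -⟩ t' ⟨ht0', -, -⟩ heq
    have htp : 0 < t := by linarith
    have htp' : 0 < t' := by linarith
    have hpos : 0 < ρ + t * W := by positivity
    have hpos' : 0 < ρ + t' * W := by positivity
    simp only at heq
    have h1 : ρ + t * W = ρ + t' * W := by
      have := congrArg (Int.ofNat) heq
      simp only [Int.ofNat_eq_natCast] at this
      rwa [Int.toNat_of_nonneg hpos.le, Int.toNat_of_nonneg hpos'.le] at this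
    have h2 : t * W = t' * W := by linarith
    exact mul_right_cancel₀ hWpos.ne' h2

end Pool.Agent.TH423.DF
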