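import Pool.Agent.TH423.DF.Fam
import Pool.Agent.TH423.DS.Core

/-! One exceptional integer for every pair of parameters; the number of pairs. -/

set_option autoImplicit false

open Finset

namespace Pool.Agent.TH423.DF

open Pool.Agent.H661R3.OP (Rough)
open Pool.Agent.TH423.DS (Rough.mul Rough.prod Rough.prime Cube F_prod prod_one_mod prod_le_pow)

/-- the integers that are counted -/
def Exc {H : Type} (a₁ a₂ b₁ b₂ : ℤ) {s : ℕ} (E E' : Fin s → ℤ) (F : ℕ → H) (S : Set H)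
    (Y X : ℕ) : Set ℕ :=
  {n : ℕ | 1 ≤ n ∧ n ≤ X ∧ 0 < a₁ * n + b₁ ∧ 0 < a₂ * n + b₂ ∧ Rough Y (a₁ * n + b₁) ∧
    Rough Y (a₂ * n + b₂) ∧ (∀ j, Rough Y (E j * n + E' j)) ∧
    F ((a₁ * n + b₁) * (a₂ * n + b₂)).natAbs ∉ S}

/-- sizes, upper bounds -/
theorem size_up (V Y3 Q M g v u h b e W Δ L a₂ YC : ℤ) (hV : 0 < V) (hY3 : 1 ≤ Y3)
    (hM : 0 < M) (hg : 0 < g) (hv0 : 0 < v) (hvV : v ≤ 2 * V) (hMg : 2 * (M * g) ≤ V)
    (hVg : V ≤ 8 * Y3 * g) (hu : u ≤ V + (YC + 1) * (M * g * W)) (hYC : 1 ≤ YC) (hW : 0 < W)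
    (hu0 : 0 < u) (hh0 : 0 < h) (hb0 : 0 < b) (hbM : b ≤ M) (ha₂ : 0 < a₂) (hL : 0 < L)
    (hΔ : L * |Δ| ≤ V ^ 2) (hEq : M * g * h - u * v = L * Δ) (he : b * h - u = a₂ * L * e)
    (he0 : 0 < e) (hQ : YC * W + 1 ≤ Q) : v * e ≤ 96 * Y3 * Q * V ^ 2 := by
  have h1 : u ≤ V * Q := by
    have e1 : (YC + 1) * (M * g * W) ≤ (2 * YC) * (M * g * W) :=
      mul_le_mul_of_nonneg_right (by linarith) (by positivity)
    have e2 : (2 * YC) * (M * g * W) = (2 * (M * g)) * (YC * W) := by ring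
    have e3 : (2 * (M * g)) * (YC * W) ≤ V * (YC * W) :=
      mul_le_mul_of_nonneg_right hMg (by positivity)
    have e4 : V * (YC * W + 1) ≤ V * Q := mul_le_mul_of_nonneg_left hQ hV.le
    linarith
  have h2 : M * g * h ≤ V ^ 2 + V * Q * (2 * V) := by
    have e1 : L * Δ ≤ L * |Δ| := mul_le_mul_of_nonneg_left (le_abs_self _) hL.le
    have e2 : u * v ≤ V * Q * (2 * V) := mul_le_mul h1 hvV hv0.le (by linarith)
    linarith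
  have hQ1 : 1 ≤ Q := by
    have : 0 < YC * W := by positivity
    linarith
  have h3 : M * g * h ≤ 3 * Q * V ^ 2 := by
    have : V ^ 2 ≤ Q * V ^ 2 := by nlinarith [sq_nonneg V]
    nlinarith
  have h4 : e ≤ b * h := by
    have e1 : e ≤ a₂ * L * e := by
      have : 1 ≤ a₂ * L := by nlinarith
      nlinarith
    linarith
  have h5 : b * h * g ≤ M * g * h := by
    have : b * (g * h) ≤ M * (g * h) := mul_le_mul_of_nonneg_right hbM (by positivity)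
    linarith
  have h6 : V * (b * h) ≤ 8 * Y3 * (3 * Q * V ^ 2) := by
    calc V * (b * h) ≤ 8 * Y3 * g * (b * h) := mul_le_mul_of_nonneg_right hVg (by positivity)
      _ = 8 * Y3 * (b * h * g) := by ring
      _ ≤ 8 * Y3 * (3 * Q * V ^ 2) :=
        mul_le_mul_of_nonneg_left (h5.trans h3) (by positivity)
  have h7 : b * h ≤ 24 * Y3 * Q * V := by
    have e1 : V * (b * h) ≤ V * (24 * Y3 * Q * V) := by
      refine h6.trans (le_of_eq ?_)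
      ring
    exact le_of_mul_le_mul_left e1 hV
  calc v * e ≤ 2 * V * (b * h) := mul_le_mul hvV h4 he0.le (by positivity)
    _ ≤ 2 * V * (24 * Y3 * Q * V) := mul_le_mul_of_nonneg_left h7 (by positivity)
    _ ≤ 96 * Y3 * Q * V ^ 2 := by
      have : 0 ≤ Y3 * Q * V ^ 2 := by positivity
      nlinarith

/-- sizes, lower bounds -/
theorem size_low (V Y3 M g v u h b e Δ L a₂ : ℤ) (hV : 0 < V) (hg : 0 < g)
    (hM : 0 < M) (hMY : M ≤ Y3) (hVv : V < v) (hMg : 2 * (M * g) ≤ V)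
    (hVu : V ≤ u) (hh0 : 0 < h) (hb0 : 1 ≤ b) (ha₂ : 0 < a₂) (hL : 0 < L)
    (hΔ : 4 * (L * |Δ|) ≤ V ^ 2) (hEq : M * g * h - u * v = L * Δ)
    (he : b * h - u = a₂ * L * e) (he0 : 0 < e) : V ^ 2 ≤ 4 * (a₂ * L) * Y3 * (g * e) := by
  have h1 : h - u ≤ a₂ * L * e := by nlinarith
  have h2 : V * (v - M * g) ≤ u * (v - M * g) :=
    mul_le_mul_of_nonneg_right hVu (by linarith)
  have h3 : V ^ 2 ≤ 2 * (V * (v - M * g)) := by nlinarith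
  have h4 : -(L * |Δ|) ≤ L * Δ := by
    have := mul_le_mul_of_nonneg_left (neg_abs_le Δ) hL.le
    linarith
  have h5 : V ^ 2 ≤ 4 * (M * g * (h - u)) := by nlinarith
  have h6 : M * g * (h - u) ≤ M * g * (a₂ * L * e) := mul_le_mul_of_nonneg_left h1 (by positivity)
  have h7 : M * (g * (a₂ * L * e)) ≤ Y3 * (g * (a₂ * L * e)) :=
    mul_le_mul_of_nonneg_right hMY (by positivity)
  nlinarith

theorem pair (r s k L a₁ a₂ : ℕ) (ha₁ : 0 < a₁) (ha₂ : 0 < a₂) (ha₁k : a₁ ≤ k) (ha₂k : a₂ ≤ k)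
    (hk : 2 + 2 ^ r + (2 ^ r * s + 2 ^ r * s) ≤ k) (hL : L = primorial (2 * k)) :
    ∃ C Y₀ : ℕ, ∀ Y : ℕ, Y₀ ≤ Y → ∀ (b₁ b₂ nst : ℤ),
    (∀ p : ℕ, p.Prime → p ≤ 2 * k → ¬ (p : ℤ) ∣ a₁ * nst + b₁) →
    (∀ p : ℕ, p.Prime → p ≤ 2 * k → ¬ (p : ℤ) ∣ a₂ * nst + b₂) →
    ∀ (E E' : Fin s → ℤ), (∀ j, ∀ p : ℕ, p.Prime → p ≤ 2 * k → ¬ (p : ℤ) ∣ E j * nst + E' j) →
    (∀ j, ∀ p : ℕ, p.Prime → (p : ℤ) ∣ E j → ¬ (p : ℤ) ∣ E' j) →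
    ∀ (P : Fin r → ℕ), (∀ i, (P i).Prime ∧ Y < P i ∧ P i ≤ Y ^ 3 ∧
      (a₁ * a₂ * L ^ 2 : ℤ) ∣ (P i : ℤ) - 1) →
    ∀ V v g X : ℕ, V < v → v ≤ 2 * V → 0 < g → 2 * ((∏ i, P i) * g) ≤ V →
    V ≤ 8 * Y ^ (3 * r) * g →
    |b₁| * (Y : ℤ) ^ (3 * r + 1) < (V : ℤ) ^ 2 → |b₂| * (Y : ℤ) ^ (3 * r + 1) < (V : ℤ) ^ 2 →
    Y ^ C * V ^ 2 ≤ X → Rough Y (g : ℤ) → Rough Y (v : ℤ) →
    (a₁ * a₂ * L ^ 2 : ℤ) ∣ (g : ℤ) - (1 - a₁ * L * (a₂ * nst + b₂)) →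
    (a₁ * a₂ * L ^ 2 : ℤ) ∣ (v : ℤ) - 1 → IsCoprime (v : ℤ) ((∏ i, (P i : ℤ)) * g) →
    (∀ A : Finset (Fin r), ∃ d : ℕ, v = (∏ i ∈ A, P i) * g + a₁ * L * d ∧ 0 < d ∧
      Rough Y (d : ℤ)) →
    ∀ (Γ : Type) [AddCommGroup Γ] (F : ℕ → Γ),
    (∀ x y : ℕ, x ≠ 0 → y ≠ 0 → F (x * y) = F x + F y) → ∀ S : Set Γ, Cube F S P →
    ∃ n ∈ Exc (a₁ : ℤ) a₂ b₁ b₂ E E' F S Y X, ∃ (A : Finset (Fin r)) (δ₁ δ₂ : ℕ),
      δ₁ ∣ (a₁ * (n : ℤ) + b₁).natAbs ∧ δ₂ ∣ (a₂ * (n : ℤ) + b₂).natAbs ∧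
      v = (∏ i ∈ A, P i) * g + a₁ * L * δ₂ ∧ (δ₁ = g ∨ δ₁ = v) := by
  classical
  have hLd : ∀ p : ℕ, p.Prime → ((p : ℤ) ∣ (L : ℤ) ↔ p ≤ 2 * k) := by
    intro p hp
    rw [Int.natCast_dvd_natCast, hL, hp.dvd_primorial_iff]
  have hL0 : 0 < L := by rw [hL]; exact primorial_pos _
  have hL0' : (0 : ℤ) < L := by exact_mod_cast hL0
  have ha₁' : (0 : ℤ) < a₁ := by exact_mod_cast ha₁
  have ha₂' : (0 : ℤ) < a₂ := by exact_mod_cast ha₂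
  obtain ⟨C, hC⟩ := fam k (L : ℤ) a₁ a₂ hL0' ha₁' ha₂' (by exact_mod_cast ha₁k)
    (by exact_mod_cast ha₂k) hLd
  refine ⟨3 * r + C + 3, 2 * k + 2 + 200 + 2 * (a₁ * a₂ * L ^ 2) + 4 * L * (a₁ + a₂), ?_⟩
  intro Y hY b₁ b₂ nst hx hy E E' hE hE' P hP V v g X hVv hvV hg hMgV hVg hb₁ hb₂ hX hgr hvr hgW
    hvW hcop hd Γ _ F hF S hcube
  have hY2 : 2 ≤ Y := by omega
  have hkY : 2 * k ≤ Y := by
    have : 0 ≤ 4 * L * (a₁ + a₂) := Nat.zero_le _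
    omega
  have hP0 : ∀ i, P i ≠ 0 := fun i => (hP i).1.ne_zero
  have hprod1 : ∀ A : Finset (Fin r), 1 ≤ ∏ i ∈ A, P i := fun A =>
    Nat.one_le_iff_ne_zero.2 (prod_ne_zero_iff.2 fun i _ => hP0 i)
  have hprodz : ∀ A : Finset (Fin r), (0 : ℤ) < ∏ i ∈ A, (P i : ℤ) := fun A => by
    exact_mod_cast hprod1 A
  have hMY : ∏ i, P i ≤ Y ^ (3 * r) := prod_le_pow univ P Y (by omega) fun i => (hP i).2.2.1
  choose d hd1 hd2 hd3 using hd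
  -- sizes
  have hV0 : 0 < V := by omega
  have hVz : (0 : ℤ) < V := by exact_mod_cast hV0
  have hgz : (0 : ℤ) < g := by exact_mod_cast hg
  have hMgz : 2 * ((∏ i, (P i : ℤ)) * g) ≤ V := by exact_mod_cast hMgV
  have hVvz : (V : ℤ) < v := by exact_mod_cast hVv
  have hvVz : (v : ℤ) ≤ 2 * V := by exact_mod_cast hvV
  have hY3 : (1 : ℤ) ≤ (Y : ℤ) ^ (3 * r) := one_le_pow₀ (by exact_mod_cast (by omega : 1 ≤ Y))
  have hYb : ∀ w : ℤ, 0 ≤ w → w ≤ Y → ∀ b : ℤ, |b| * (Y : ℤ) ^ (3 * r + 1) < (V : ℤ) ^ 2 →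
      w * (Y : ℤ) ^ (3 * r) * |b| < (V : ℤ) ^ 2 := by
    intro w hw0 hwY b hb
    refine lt_of_le_of_lt ?_ hb
    calc w * (Y : ℤ) ^ (3 * r) * |b| ≤ Y * (Y : ℤ) ^ (3 * r) * |b| := by
          apply mul_le_mul_of_nonneg_right _ (abs_nonneg _)
          exact mul_le_mul_of_nonneg_right hwY (by positivity)
      _ = |b| * (Y : ℤ) ^ (3 * r + 1) := by rw [pow_succ]; ring
  have hΔ4 : 4 * ((L : ℤ) * |(a₂ : ℤ) * b₁ - a₁ * b₂|) ≤ (V : ℤ) ^ 2 := by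
    have e1 : |(a₂ : ℤ) * b₁ - a₁ * b₂| ≤ a₂ * |b₁| + a₁ * |b₂| := by
      refine (abs_sub _ _).trans (le_of_eq ?_)
      rw [abs_mul, abs_mul, abs_of_pos ha₁', abs_of_pos ha₂']
    have hLY : (4 * L * (a₁ + a₂) : ℤ) ≤ Y := by exact_mod_cast (by omega : 4 * L * (a₁ + a₂) ≤ Y)
    have e2 := hYb (4 * L * (a₁ + a₂)) (by positivity) hLY b₁ hb₁
    have e3 := hYb (4 * L * (a₁ + a₂)) (by positivity) hLY b₂ hb₂
    have e4 : ((4 * L * (a₁ + a₂) : ℤ)) * |b₁| ≤ (4 * L * (a₁ + a₂) : ℤ) * (Y : ℤ) ^ (3 * r) * |b₁| := by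
      apply mul_le_mul_of_nonneg_right _ (abs_nonneg _)
      exact le_mul_of_one_le_right (by positivity) hY3
    have e5 : ((4 * L * (a₁ + a₂) : ℤ)) * |b₂| ≤ (4 * L * (a₁ + a₂) : ℤ) * (Y : ℤ) ^ (3 * r) * |b₂| := by
      apply mul_le_mul_of_nonneg_right _ (abs_nonneg _)
      exact le_mul_of_one_le_right (by positivity) hY3
    have e6 : 4 * ((L : ℤ) * |(a₂ : ℤ) * b₁ - a₁ * b₂|) ≤ 4 * L * (a₂ * |b₁| + a₁ * |b₂|) := by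
      have := mul_le_mul_of_nonneg_left e1 hL0'.le
      linarith
    have e7 : (a₁ + a₂ : ℤ) * (4 * L * (a₂ * |b₁| + a₁ * |b₂|)) ≤ (a₁ + a₂ : ℤ) * (V : ℤ) ^ 2 := by
      have f1 := mul_le_mul_of_nonneg_left (e4.trans e2.le) ha₂'.le
      have f2 := mul_le_mul_of_nonneg_left (e5.trans e3.le) ha₁'.le
      linarith
    exact e6.trans (le_of_mul_le_mul_left e7 (by positivity))
  have hΔ1 : (L : ℤ) * |(a₂ : ℤ) * b₁ - a₁ * b₂| ≤ (V : ℤ) ^ 2 := by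
    have : 0 ≤ (L : ℤ) * |(a₂ : ℤ) * b₁ - a₁ * b₂| := by positivity
    linarith
  have hΔlt : (L : ℤ) * |(a₂ : ℤ) * b₁ - a₁ * b₂| < V * ((v : ℤ) - (∏ i, (P i : ℤ)) * g) := by
    have e1 : (V : ℤ) ^ 2 < 2 * (V * ((v : ℤ) - (∏ i, (P i : ℤ)) * g)) := by
      have f1 : (V : ℤ) < 2 * ((v : ℤ) - (∏ i, (P i : ℤ)) * g) := by linarith
      have f2 := mul_lt_mul_of_pos_left f1 hVz
      calc (V : ℤ) ^ 2 = V * V := by ring
        _ < V * (2 * ((v : ℤ) - (∏ i, (P i : ℤ)) * g)) := f2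
        _ = _ := by ring
    have : 0 ≤ (L : ℤ) * |(a₂ : ℤ) * b₁ - a₁ * b₂| := by positivity
    linarith
  obtain ⟨u, h, hu0, hVu, huB, huh, hur, hhr, hEq, hfam⟩ := hC (Finset (Fin r)) s
    (by simpa using hk) Y hY2 hkY b₁ b₂ nst hx hy E E' hE hE' (∏ i, (P i : ℤ)) g v V
    (fun A => ∏ i ∈ A, (P i : ℤ)) (fun A => ∏ i ∈ Aᶜ, (P i : ℤ)) (fun A => (d A : ℤ))
    (hprodz univ) hgz hVz.le (by linarith)
    (Rough.prod _ _ fun i _ => Rough.prime (hP i).1 (hP i).2.1) hgr hvr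
    (fun A => ⟨hprodz A, hprodz Aᶜ, Finset.prod_mul_prod_compl A _⟩)
    (fun A => prod_one_mod _ A _ fun i _ => (hP i).2.2.2)
    (fun A => prod_one_mod _ Aᶜ _ fun i _ => (hP i).2.2.2)
    (prod_one_mod _ univ _ fun i _ => (hP i).2.2.2) hgW hvW hcop
    (fun A => ⟨by have := hd1 A; zify at this; linarith, by exact_mod_cast hd2 A, hd3 A⟩) hΔlt
  have hh0 : 0 < h := by linarith
  lift u to ℕ using hu0.le
  lift h to ℕ using hh0.le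
  have hu0' : u ≠ 0 := by omega
  have hh0' : h ≠ 0 := by omega
  have hv0' : v ≠ 0 := by omega
  have hg0' : g ≠ 0 := by omega
  obtain ⟨A, hA⟩ := hcube (F g + F u - F v - F h)
  obtain ⟨e, n, n', he1, he2, he3, hn1, hn2, hn3, hn4, hj1, hj2⟩ := hfam A
  lift e to ℕ using he2.le
  have he0 : e ≠ 0 := by omega
  have hd0 : d A ≠ 0 := by have := hd2 A; omega
  have hW0 : (0 : ℤ) < a₁ * a₂ * L ^ 2 := by positivity
  have hA0 : (∏ i ∈ A, P i) ≠ 0 := by have := hprod1 A; omega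
  have hB0 : (∏ i ∈ Aᶜ, P i) ≠ 0 := by have := hprod1 Aᶜ; omega
  have hMA : (∏ i ∈ A, (P i : ℤ)) * ∏ i ∈ Aᶜ, (P i : ℤ) = ∏ i, (P i : ℤ) :=
    Finset.prod_mul_prod_compl A _
  have hAM : ∏ i ∈ A, (P i : ℤ) ≤ ∏ i, (P i : ℤ) := by
    rw [← hMA]
    exact le_mul_of_one_le_right (hprodz A).le (hprodz Aᶜ)
  have hBM : ∏ i ∈ Aᶜ, (P i : ℤ) ≤ ∏ i, (P i : ℤ) := by
    rw [← hMA]
    exact le_mul_of_one_le_left (hprodz Aᶜ).le (hprodz A)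
  have hYW : (a₁ * a₂ * L ^ 2 : ℤ) + 1 ≤ Y := by
    exact_mod_cast (by omega : a₁ * a₂ * L ^ 2 + 1 ≤ Y)
  have hYC1 : (1 : ℤ) ≤ (Y : ℤ) ^ C := one_le_pow₀ (by exact_mod_cast (by omega : 1 ≤ Y))
  have hup : (v : ℤ) * e ≤ 96 * (Y : ℤ) ^ (3 * r) * (Y : ℤ) ^ (C + 1) * (V : ℤ) ^ 2 := by
    refine size_up V _ _ (∏ i, (P i : ℤ)) g v u h (∏ i ∈ Aᶜ, (P i : ℤ)) e
      (a₁ * a₂ * L ^ 2) _ L a₂ ((Y : ℤ) ^ C) hVz hY3 (hprodz univ) hgz (by omega) hvVz hMgz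
      (by exact_mod_cast hVg) huB hYC1 hW0 hu0 hh0 (hprodz _) hBM ha₂' hL0' hΔ1 hEq he1 he2 ?_
    calc (Y : ℤ) ^ C * (a₁ * a₂ * L ^ 2) + 1 ≤ (Y : ℤ) ^ C * (a₁ * a₂ * L ^ 2 + 1) := by linarith
      _ ≤ (Y : ℤ) ^ C * Y := mul_le_mul_of_nonneg_left hYW (by positivity)
      _ = (Y : ℤ) ^ (C + 1) := by rw [pow_succ]
  have hlow : (V : ℤ) ^ 2 ≤ 4 * (a₂ * L) * (Y : ℤ) ^ (3 * r) * ((g : ℤ) * e) :=
    size_low V _ (∏ i, (P i : ℤ)) g v u h (∏ i ∈ Aᶜ, (P i : ℤ)) e _ L a₂ hVz hgz (hprodz univ)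
      (by exact_mod_cast hMY) hVvz hMgz hVu hh0 (hprodz _) ha₂' hL0' hΔ4 hEq he1 he2
  have hge : |b₁| < (g : ℤ) * e := by
    have hLY : (4 * (a₂ * L) : ℤ) ≤ Y := by
      have : 4 * (a₂ * L) ≤ 4 * L * (a₁ + a₂) := by
        calc 4 * (a₂ * L) = 4 * L * a₂ := by ring
          _ ≤ 4 * L * (a₁ + a₂) := Nat.mul_le_mul_left _ (by omega)
      exact_mod_cast (by omega : 4 * (a₂ * L) ≤ Y)
    have e2 := hYb (4 * (a₂ * L)) (by positivity) hLY b₁ hb₁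
    have e3 : (4 * (a₂ * L) : ℤ) * (Y : ℤ) ^ (3 * r) * |b₁| <
      4 * (a₂ * L) * (Y : ℤ) ^ (3 * r) * ((g : ℤ) * e) := lt_of_lt_of_le e2 hlow
    exact lt_of_mul_lt_mul_left e3 (by positivity)
  have hb₁V : |b₁| ≤ (V : ℤ) ^ 2 := by
    refine le_trans ?_ hb₁.le
    exact le_mul_of_one_le_right (abs_nonneg _) (one_le_pow₀ (by exact_mod_cast (by omega : 1 ≤ Y)))
  have hXup : 96 * (Y : ℤ) ^ (3 * r) * (Y : ℤ) ^ (C + 1) * (V : ℤ) ^ 2 + (V : ℤ) ^ 2 ≤ X := by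
    have e1 : (Y : ℤ) ^ (3 * r + C + 3) * (V : ℤ) ^ 2 ≤ X := by exact_mod_cast hX
    have e2 : (Y : ℤ) ^ (3 * r + C + 3) = (Y : ℤ) ^ (3 * r) * (Y : ℤ) ^ (C + 1) * (Y : ℤ) ^ 2 := by
      ring
    have e3 : (97 : ℤ) ≤ (Y : ℤ) ^ 2 := by
      have f1 : (97 : ℤ) ≤ Y := by exact_mod_cast (by omega : 97 ≤ Y)
      have f2 : (Y : ℤ) ^ 1 ≤ (Y : ℤ) ^ 2 := pow_le_pow_right₀ (by linarith) (by norm_num)
      rw [pow_one] at f2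
      exact f1.trans f2
    have e4 : (1 : ℤ) ≤ (Y : ℤ) ^ (3 * r) * (Y : ℤ) ^ (C + 1) := by
      have f1 : (1 : ℤ) ≤ (Y : ℤ) ^ (C + 1) := one_le_pow₀ (by exact_mod_cast (by omega : 1 ≤ Y))
      exact le_trans hY3 (le_mul_of_one_le_right (by positivity) f1)
    rw [e2] at e1
    obtain ⟨q, hq⟩ : ∃ q : ℤ, q = (Y : ℤ) ^ (3 * r) * (Y : ℤ) ^ (C + 1) := ⟨_, rfl⟩
    rw [← hq] at e1 e4
    have e5 : 96 * (Y : ℤ) ^ (3 * r) * (Y : ℤ) ^ (C + 1) * (V : ℤ) ^ 2 = 96 * q * (V : ℤ) ^ 2 := by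
      rw [hq]; ring
    rw [e5]
    have e6 : 97 * (q * (V : ℤ) ^ 2) ≤ (Y : ℤ) ^ 2 * (q * (V : ℤ) ^ 2) :=
      mul_le_mul_of_nonneg_right e3 (by positivity)
    have e7 : (V : ℤ) ^ 2 ≤ q * (V : ℤ) ^ 2 := le_mul_of_one_le_left (by positivity) e4
    linarith
  have hx1 : (g : ℤ) * e ≤ (∏ i ∈ A, (P i : ℤ)) * g * e := by
    have : (1 : ℤ) ≤ ∏ i ∈ A, (P i : ℤ) := hprodz A
    have := mul_le_mul_of_nonneg_right this (by positivity : (0 : ℤ) ≤ (g : ℤ) * e)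
    linarith
  have hx2 : (∏ i ∈ A, (P i : ℤ)) * g * e ≤ (v : ℤ) * e := by
    apply mul_le_mul_of_nonneg_right _ (by positivity)
    have := mul_le_mul_of_nonneg_right hAM hgz.le
    linarith
  have hbpos : ∀ m x : ℤ, (a₁ : ℤ) * m + b₁ = x → (g : ℤ) * e ≤ x → x ≤ (v : ℤ) * e →
      0 < m ∧ m ≤ X := by
    intro m x hm hx1 hx2
    have e1 : 0 < (a₁ : ℤ) * m := by
      have := neg_abs_le b₁
      have := le_abs_self b₁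
      linarith
    have e2 : 0 < m := (mul_pos_iff_of_pos_left ha₁').1 e1
    refine ⟨e2, ?_⟩
    have e3 : m ≤ a₁ * m := le_mul_of_one_le_left e2.le ha₁'
    have := neg_abs_le b₁
    linarith
  obtain ⟨hn0, hnX⟩ := hbpos n _ hn1 hx1 hx2
  obtain ⟨hn0', hnX'⟩ := hbpos n' _ hn3 (hx1.trans hx2) le_rfl
  lift n to ℕ using hn0.le
  lift n' to ℕ using hn0'.le
  have hN1 : (a₁ : ℤ) * n + b₁ = (((∏ i ∈ A, P i) * g * e : ℕ) : ℤ) := by rw [hn1]; push_cast; ring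
  have hN2 : (a₂ : ℤ) * n + b₂ = ((u * d A : ℕ) : ℤ) := by rw [hn2]; push_cast; ring
  have hN3 : (a₁ : ℤ) * n' + b₁ = ((v * e : ℕ) : ℤ) := by rw [hn3]; push_cast; ring
  have hN4 : (a₂ : ℤ) * n' + b₂ = (((∏ i ∈ Aᶜ, P i) * h * d A : ℕ) : ℤ) := by
    rw [hn4]; push_cast; ring
  have hF1 : F ((∏ i ∈ A, P i) * g * e * (u * d A)) =
      ∑ i ∈ A, F (P i) + F g + F e + (F u + F (d A)) := by
    rw [hF _ _ (by positivity) (by positivity), hF _ _ (by positivity) he0,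
      hF _ _ hA0 hg0', hF _ _ hu0' hd0, F_prod F hF A P fun i _ => hP0 i]
  have hF2 : F (v * e * ((∏ i ∈ Aᶜ, P i) * h * d A)) =
      F v + F e + (∑ i ∈ Aᶜ, F (P i) + F h + F (d A)) := by
    rw [hF _ _ (by positivity) (by positivity), hF _ _ hv0' he0, hF _ _ (by positivity) hd0,
      hF _ _ hB0 hh0', F_prod F hF Aᶜ P fun i _ => hP0 i]
  have hPr : ∀ B : Finset (Fin r), Rough Y (∏ i ∈ B, (P i : ℤ)) := fun B =>
    Rough.prod _ _ fun i _ => Rough.prime (hP i).1 (hP i).2.1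
  by_cases h1 : F ((∏ i ∈ A, P i) * g * e * (u * d A)) ∈ S
  · by_cases h2 : F (v * e * ((∏ i ∈ Aᶜ, P i) * h * d A)) ∈ S
    · exfalso
      apply hA _ h1 _ h2
      rw [hF1, hF2]
      abel
    · refine ⟨n', ⟨by omega, by omega, ?_, ?_, ?_, ?_, hj2, ?_⟩, A, v, d A, ?_, ?_, hd1 A,
        Or.inr rfl⟩
      · rw [hN3]; exact_mod_cast (by positivity : 0 < v * e)
      · rw [hN4]; exact_mod_cast (by positivity : 0 < (∏ i ∈ Aᶜ, P i) * h * d A)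
      · rw [hN3]; push_cast; exact Rough.mul hvr he3
      · rw [hN4]; push_cast; exact Rough.mul (Rough.mul (hPr _) hhr) (hd3 A)
      · rw [hN3, hN4, ← Nat.cast_mul, Int.natAbs_natCast]; exact h2
      · rw [hN3, Int.natAbs_natCast]; exact Dvd.intro _ rfl
      · rw [hN4, Int.natAbs_natCast]; exact Dvd.intro_left _ rfl
  · refine ⟨n, ⟨by omega, by omega, ?_, ?_, ?_, ?_, hj1, ?_⟩, A, g, d A, ?_, ?_, hd1 A,
      Or.inl rfl⟩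
    · rw [hN1]; exact_mod_cast (by positivity : 0 < (∏ i ∈ A, P i) * g * e)
    · rw [hN2]; exact_mod_cast (by positivity : 0 < u * d A)
    · rw [hN1]; push_cast; exact Rough.mul (Rough.mul (hPr _) hgr) he3
    · rw [hN2]; push_cast; exact Rough.mul hur (hd3 A)
    · rw [hN1, hN2, ← Nat.cast_mul, Int.natAbs_natCast]; exact h1
    · rw [hN1, Int.natAbs_natCast]; exact (Dvd.intro_left _ rfl : g ∣ (∏ i ∈ A, P i) * g).mul_right _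
    · rw [hN2, Int.natAbs_natCast]; exact Dvd.intro_left _ rfl

end Pool.Agent.TH423.DF
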